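import Pool.Agent.Helper61.LF.Goals

/-!
Project LF (MP_c65973_gt), packet FIN: the finite-dimensional case.
-/

set_option autoImplicit false

namespace Pool.Agent.Helper78.LF.FIN

open Pool.Agent.Helper61.LF

universe u

theorem t (h : S_FGF.{u}) : S_FIN.{u} := by
  intro k _ P _ _ _ τ b z r s R H hinf
  -- the field is infinite
  have hk : Infinite k := by
    by_contra hk
    rw [not_infinite_iff_finite] at hk
    have hP : Finite P := Module.finite_of_finite k
    have hQ : Finite (P ⧸ R) := Quotient.finite _
    exact not_finite (P ⧸ R)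
  have hR : R < ⊤ := by
    rw [lt_top_iff_ne_top]
    rintro rfl
    have : Subsingleton (P ⧸ (⊤ : Submodule k P)) := Submodule.Quotient.subsingleton_iff.mpr rfl
    exact not_finite (P ⧸ (⊤ : Submodule k P))
  obtain ⟨φ, hφ0, hφ⟩ := Submodule.exists_le_ker_of_lt_top R hR
  have hsurj : Function.Surjective φ := LinearMap.surjective hφ0
  set e := Module.finBasis k P with he
  set S : Set k := (Set.range fun q : Fin (Module.finrank k P) × Fin (Module.finrank k P) =>
      e.repr (τ (e q.1)) q.2) ∪
    (Set.range fun q : Fin r × Fin (Module.finrank k P) => e.repr (b q.1) q.2) ∪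
    (Set.range fun l : Fin (Module.finrank k P) => φ (e l)) with hS
  have hSfin : S.Finite := ((Set.finite_range _).union (Set.finite_range _)).union
    (Set.finite_range _)
  set B := Algebra.adjoin ℤ S with hB
  have h1 : ∀ i l, e.repr (τ (e i)) l ∈ B := fun i l =>
    Algebra.subset_adjoin (Or.inl (Or.inl ⟨(i, l), rfl⟩))
  have h2 : ∀ j < r, ∀ l, e.repr (b j) l ∈ B := fun j hj l =>
    Algebra.subset_adjoin (Or.inl (Or.inr ⟨(⟨j, hj⟩, l), rfl⟩))
  have h3 : ∀ l, φ (e l) ∈ B := fun l => Algebra.subset_adjoin (Or.inr ⟨l, rfl⟩)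
  have h4 : ∀ j < r, ∀ n l, e.repr ((τ ^ n) (b j)) l ∈ B := by
    intro j hj n
    induction n with
    | zero => intro l; simpa using h2 j hj l
    | succ n ih =>
      intro l
      have e1 : (τ ^ (n + 1)) (b j) = τ ((τ ^ n) (b j)) := by
        rw [pow_succ', Module.End.mul_apply]
      have e2 : τ ((τ ^ n) (b j)) = ∑ i, e.repr ((τ ^ n) (b j)) i • τ (e i) := by
        conv_lhs => rw [← e.sum_repr ((τ ^ n) (b j)), map_sum]
        simp only [map_smul]
      rw [e1, e2, map_sum, Finsupp.finset_sum_apply]
      apply Subalgebra.sum_mem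
      intro i _
      rw [map_smul, Finsupp.smul_apply, smul_eq_mul]
      exact B.mul_mem (ih i) (h1 i l)
  have h5 : ∀ j < r, ∀ n, φ ((τ ^ n) (b j)) ∈ B := by
    intro j hj n
    rw [← e.sum_repr ((τ ^ n) (b j)), map_sum]
    apply Subalgebra.sum_mem
    intro i _
    rw [map_smul, smul_eq_mul]
    exact B.mul_mem (h4 j hj n i) (h3 i)
  have h6 : ∀ c : k, c ∉ B → c ∈ (fun i => φ (z i)) '' Set.Iio s := by
    intro c hc
    obtain ⟨p, rfl⟩ := hsurj c
    rcases H p with ⟨j, hj, n, hp⟩ | ⟨i, hi, hp⟩
    · exfalso
      apply hc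
      have := hφ hp
      rw [LinearMap.mem_ker, map_sub, sub_eq_zero] at this
      rw [this]
      exact h5 j hj n
    · refine ⟨i, hi, ?_⟩
      have := hφ hp
      rw [LinearMap.mem_ker, map_sub, sub_eq_zero] at this
      exact this.symm
  have h7 : {c : k | c ∉ B}.Finite :=
    ((Set.finite_Iio s).image _).subset fun c hc => h6 c hc
  have h8 : B = ⊤ := by
    rw [eq_top_iff]
    intro c _
    by_contra hc
    have h10 : (B : Set k) ⊆ (fun x : k => x - c) '' {x : k | x ∉ B} := by
      intro x hx
      refine ⟨x + c, ?_, by simp⟩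
      intro hxc
      apply hc
      have := B.sub_mem hxc hx
      simpa using this
    have h11 : (B : Set k).Finite := (h7.image _).subset h10
    have h12 : (Set.univ : Set k).Finite := by
      refine (h11.union h7).subset ?_
      intro x _
      by_cases hx : x ∈ B
      · exact Or.inl hx
      · exact Or.inr hx
    exact Set.infinite_univ h12
  have h13 : Finite k := h k S hSfin h8
  exact not_finite k

end Pool.Agent.Helper78.LF.FIN
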